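import Pool.Agent.DX.Main
import Pool.Agent.DX.Sanity
import Pool.Agent.DX.Pub

/-!
# Q1 is independent of ZFC

Q1: any two simple separable C*-algebras whose spectra (with the Mackey Borel structures) are not
standard have isomorphic spectra.

(1) There is a countable transitive model of ZFC in which Q1 is true (in fact for all separable
C*-algebras, simple or not).
(2) There is a countable transitive model of ZFC in which Q1 is false: in this model the spectra of
the CAR algebra `A` and of another unital simple separable C*-algebra `B` are not standard and not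
isomorphic.

How the notions of the model `M` are expressed (`Pool/Agent/DX/Defs.lean`, `Pool/Agent/DX/Pub.lean`):
* a separable C*-algebra of `M` is given by a C*-algebra `A` with a dense sequence `x` such that
  the real `acode x` (the norms of the *-polynomials with rational complex coefficients in
  the elements `x n`) is in `M`;
* an irreducible representation of it in `M` is given by an irreducible representation `π : Irr A`
  such that the real `rc x π` (the dimension, and the matrix coefficients of the operators
  `π (x k)` for the standard basis) is in `M`;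
* `BorM M (rc x)` is the sigma-algebra of `M` generated by the bits of this code, that is, the Borel
  sets of the space of irreducible representations in the sense of `M`;
* `SpIsoM M x y` : in `M` there is a relation which induces a bijection of the spectra (sets of
  classes of irreducible representations of `M`) and this bijection and its inverse map Borel sets
  (for the quotient structures) to Borel sets; `SpStdM M x` : in `M` the spectrum is isomorphic to a
  Borel subset of the Cantor space.
(3) For `M = Set.univ` (the whole universe) these are the usual notions.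
-/

namespace Pool.Agent.Results.MP_1ac9dc_an.Independence

open MBS DX DXP
open Pool.Agent.RFN Pool.Agent.H78.ZF

/-- `M` is a countable transitive model of ZFC. -/
def IsCTM (M : Set ZFSet.{0}) : Prop :=
  M.Countable ∧ (∀ x ∈ M, ∀ y ∈ x, y ∈ M) ∧
    ∃ h : IsZFModel fun x y : M => x.1 ∈ y.1, letI : ZFM M := ⟨_, h⟩; Choice M

/-- The C*-algebra `A` is simple: there are no closed two-sided ideals besides `0` and `A`. -/
def CSimple (A : Type) [NonUnitalCStarAlgebra A] : Prop :=
  Nontrivial A ∧ ∀ I : TwoSidedIdeal A, IsClosed {a : A | a ∈ I} → I = ⊥ ∨ I = ⊤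

/-- Q1 holds in `M` : in `M`, any two simple separable C*-algebras whose spectra are not standard have
isomorphic spectra. -/
def Q1 (M : Set ZFSet.{0}) : Prop :=
  ∀ (A B : Type) [NonUnitalCStarAlgebra A] [NonUnitalCStarAlgebra B] (x : ℕ → A) (y : ℕ → B),
    DenseRange x → DenseRange y → rZ (acode x) ∈ M → rZ (acode y) ∈ M → CSimple A → CSimple B →
    ¬ SpStdM M x → ¬ SpStdM M y → SpIsoM M x y

/-- In `M`, any two separable C*-algebras whose spectra are not standard have isomorphic spectra. -/
def StrongQ1 (M : Set ZFSet.{0}) : Prop :=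
  ∀ (A B : Type) [NonUnitalCStarAlgebra A] [NonUnitalCStarAlgebra B] (x : ℕ → A) (y : ℕ → B),
    DenseRange x → DenseRange y → rZ (acode x) ∈ M → rZ (acode y) ∈ M →
    ¬ SpStdM M x → ¬ SpStdM M y → SpIsoM M x y

theorem csimple_of {A : Type} [CStarAlgebra A] (h : IsSimpleRing A) : CSimple A :=
  ⟨inferInstance, fun I _ => h.simple.eq_bot_or_eq_top I⟩

theorem result :
    -- (1) Q1 is true in some countable transitive model of ZFC
    (∃ M, IsCTM M ∧ Q1 M ∧ StrongQ1 M) ∧
    -- (2) Q1 is false in some countable transitive model of ZFC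
    (∃ M, IsCTM M ∧ ¬ Q1 M ∧
      ∃ (A B : Type) (_ : CStarAlgebra A) (_ : CStarAlgebra B) (x : ℕ → A) (y : ℕ → B),
        CSimple A ∧ CSimple B ∧ IsCAR A ∧ DenseRange x ∧ DenseRange y ∧
        rZ (acode x) ∈ M ∧ rZ (acode y) ∈ M ∧ ¬ SpStdM M x ∧ ¬ SpStdM M y ∧
        ¬ SpIsoM M x y ∧ ¬ SpIsoM M y x) ∧
    -- (3) the meaning of the definitions if `M` is the universe
    (∀ (A : Type) [NonUnitalCStarAlgebra A] (x : ℕ → A), DenseRange x →
      (SpStdM Set.univ x ↔ StandardBorelSpace (Sp A))) ∧
    (∀ (A B : Type) [NonUnitalCStarAlgebra A] [NonUnitalCStarAlgebra B] (x : ℕ → A) (y : ℕ → B),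
      DenseRange x → DenseRange y →
      (SpIsoM Set.univ x y ↔ Nonempty (Sp A ≃ᵐ Sp B))) := by
  refine ⟨?_, ?_, fun A _ x hx => (stdM_iff _ x).trans ((specStdM_univ hx).trans (sp_std A).symm),
    fun A B _ _ x y hx hy => (isoM_iff _ x y).trans ((specIsoM_univ hx hy).trans (sp_iso A B).symm)⟩
  · obtain ⟨M, h, h1, h2, h3, h4⟩ := exists_model1
    have h5 : StrongQ1 M := fun A B _ _ x y hx hy hxM hyM nx ny =>
      (isoM_iff M x y).2 (h4 A B x y hx hy hxM hyM (fun h => nx ((stdM_iff M x).2 h))
        (fun h => ny ((stdM_iff M y).2 h)))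
    exact ⟨M, ⟨h1, h2, h, h3⟩,
      fun A B _ _ x y hx hy hxM hyM _ _ nx ny => h5 A B x y hx hy hxM hyM nx ny, h5⟩
  · obtain ⟨M, h, h1, h2, h3, A, B, iA, iB, x, y, sA, sB, hA, hx, hy, hxM, hyM, nx, ny, n1, n2⟩ :=
      exists_model2
    have nx' : ¬ SpStdM M x := fun h => nx ((stdM_iff M x).1 h)
    have ny' : ¬ SpStdM M y := fun h => ny ((stdM_iff M y).1 h)
    have n1' : ¬ SpIsoM M x y := fun h => n1 ((isoM_iff M x y).1 h)
    have n2' : ¬ SpIsoM M y x := fun h => n2 ((isoM_iff M y x).1 h)
    exact ⟨M, ⟨h1, h2, h, h3⟩, fun hq => n1' (hq A B x y hx hy hxM hyM (csimple_of sA)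
      (csimple_of sB) nx' ny'), A, B, iA, iB, x, y, csimple_of sA, csimple_of sB, hA, hx, hy, hxM,
      hyM, nx', ny', n1', n2'⟩

end Pool.Agent.Results.MP_1ac9dc_an.Independence
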