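import Pool.Agent.MBS.Main

/-!
Two simple separable C*-algebras with non-standard spectra, between which there is no isomorphism
of Mackey Borel structures with a Borel lifting, or with an analytic graph.
-/

namespace Pool.Agent.Results.MP_1ac9dc_an.NoDefinableIsomorphism

open MBS MeasureTheory TopologicalSpace

/-- A separable simple C*-algebra whose spectrum, with the Mackey Borel structure, is not
standard. -/
def SimpleNonstandard (A : Type) [CStarAlgebra A] : Prop :=
  SeparableSpace A ∧ IsSimpleRing A ∧ ¬ StandardBorelSpace (Spec A)

/-- For every finite Borel measure, `f` is almost everywhere equal to a Borel map. -/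
def UniversallyMeasurable {A B : Type} [CStarAlgebra A] [CStarAlgebra B]
    (f : Irr B → Irr A) : Prop :=
  ∀ ν : Measure (Irr B), IsFiniteMeasure ν → AEMeasurable f ν

/-- The map `Φ` of the spectra has an analytic graph: `{(σ, π) | Φ [σ] = [π]}` is an analytic
subset of `Irr B × Irr A`. -/
def AnalyticGraph {A B : Type} [CStarAlgebra A] [CStarAlgebra B]
    (Φ : Spec B → Spec A) : Prop :=
  AnalyticSet {p : Irr B × Irr A | Φ (toSpec p.1) = toSpec p.2}

/-- There is a measurable family `I x` of irreducible representations of `B`, indexed by a
probability space, every equivalence class having probability zero, such that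
* every measurable map `f : Irr B → Irr A` which respects unitary equivalence is almost surely
  constant up to unitary equivalence along `I`;
* every map `Φ` from the spectrum of `B` to the spectrum of `A` with an analytic graph is almost
  surely constant along `I`. -/
def AlmostConstant (A B : Type) [CStarAlgebra A] [CStarAlgebra B] : Prop :=
  ∃ (X : Type) (_ : MeasurableSpace X) (μ : Measure X) (I : X → Irr B),
    IsProbabilityMeasure μ ∧ Measurable I ∧ (∀ σ, μ {x | UEquiv (I x) σ} = 0) ∧
    (∀ f : Irr B → Irr A, AEMeasurable f (μ.map I) →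
      (∀ σ τ, UEquiv σ τ → UEquiv (f σ) (f τ)) → ∃ π, ∀ᵐ x ∂μ, UEquiv (f (I x)) π) ∧
    (∀ Φ : Spec B → Spec A, AnalyticGraph Φ → ∃ q, ∀ᵐ x ∂μ, Φ (toSpec (I x)) = q)

/-- There are unital separable simple C*-algebras `A` and `B` (`A` is the CAR algebra) whose
spectra, with the Mackey Borel structure, are not standard, such that
* no universally measurable (for instance Borel) map `f : Irr B → Irr A` satisfies: `σ` and `τ` are
  unitarily equivalent if and only if `f σ` and `f τ` are;
* no injective map from the spectrum of `B` to the spectrum of `A` has an analytic graph;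
* moreover all maps of these two kinds, injective or not, are almost constant. -/
theorem result : ∃ (A B : Type) (_ : CStarAlgebra A) (_ : CStarAlgebra B),
    IsCAR A ∧ SimpleNonstandard A ∧ SimpleNonstandard B ∧
    (∀ f : Irr B → Irr A, UniversallyMeasurable f →
      ¬ ∀ σ τ, UEquiv σ τ ↔ UEquiv (f σ) (f τ)) ∧
    (∀ Φ : Spec B → Spec A, Function.Injective Φ → ¬ AnalyticGraph Φ) ∧
    AlmostConstant A B := by
  obtain ⟨A, B, iA, iB, h1, h2, h3, h4, h5, h6, h7, h8, h9, h10⟩ := MBS.main
  exact ⟨A, B, iA, iB, h5, ⟨h1, h3, h6⟩, ⟨h2, h4, h7⟩, h8, h9, h10⟩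

end Pool.Agent.Results.MP_1ac9dc_an.NoDefinableIsomorphism
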